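import Mathlib
import Pool.Agent.Y822.Q.Stm
import Pool.Agent.Y822.Q.Cmb

/-! Combinatorial and numerical lemmas for the `51/200` law. -/

set_option autoImplicit false

namespace Pool.Agent.Y822.V

open Finset Filter Topology
open Pool.Agent.Y822
open Pool.Agent.H373R2.T7 (pz Vz mem_pz)
open Pool.Agent.H387R2.Uni (nuT Adm locT CT)

lemma exists_xV (k : ℕ) (d : ℝ) (hd : 0 < d) : ∃ x : ℝ, 0 < x ∧ x ≤ d ∧
    (51 / 200 - 2 * x) + (51 * (k + 1) - 1 / 2) * (1 + x) ^ (k + 2) ≤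
      200 * (k + 1) * (1 - x) ^ (k + 1) * (51 / 200 - 2 * x) := by
  have hc : ContinuousAt (fun x : ℝ => (51 / 200 - 2 * x) + (51 * (k + 1) - 1 / 2) * (1 + x) ^ (k + 2)) 0 := by fun_prop
  have hc' : ContinuousAt (fun x : ℝ => 200 * ((k : ℝ) + 1) * (1 - x) ^ (k + 1) * (51 / 200 - 2 * x)) 0 := by fun_prop
  have h1 : ∀ᶠ x in 𝓝 (0 : ℝ), (51 / 200 - 2 * x) + (51 * (k + 1) - 1 / 2) * (1 + x) ^ (k + 2) <
      200 * ((k : ℝ) + 1) * (1 - x) ^ (k + 1) * (51 / 200 - 2 * x) := by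
    refine hc.eventually_lt hc' ?_
    simp only [mul_zero, sub_zero, add_zero, one_pow, mul_one]
    linarith
  obtain ⟨δ, hδ, h2⟩ := Metric.eventually_nhds_iff.1 h1
  refine ⟨min (δ / 2) d, by positivity, min_le_right _ _, ?_⟩
  refine (h2 ?_).le
  rw [Real.dist_eq, sub_zero, abs_of_pos (by positivity)]
  exact (min_le_left _ _).trans_lt (by linarith)

open Classical in
/-- the number of `n ≤ N` such that at least `51/200` of the `n + i` are primes and all are rough -/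
noncomputable def cntV (H : Finset ℕ) (z N : ℕ) : ℕ :=
  ((Icc 1 N).filter (fun n => 51 * H.card ≤ 200 * (H.filter (fun i => (n + i).Prime)).card ∧ ∀ t ∈ H, Ro z (n + t))).card

open Classical in
lemma T_leV {g : ℕ → ℝ} (hg : ∀ m, 0 ≤ g m ∧ g m ≤ 1) {z : ℕ} (hgR : ∀ m, g m ≠ 0 → Ro z m) (H : Finset ℕ) (N : ℕ) :
    ∑ n ∈ Icc 1 N, (∏ t ∈ H, g (n + t)) * (200 * (∑ i ∈ H, eP (n + i)) - 51 * (H.card : ℝ) + 1 / 2) ≤
      200 * H.card * cntV H z N + cntV H z N := by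
  have hsum : ∀ n : ℕ, ∑ i ∈ H, eP (n + i) = ((H.filter (fun i => (n + i).Prime)).card : ℝ) := by
    intro n
    unfold eP
    rw [← sum_filter, sum_const, nsmul_eq_mul, mul_one]
  have hpt : ∀ n ∈ Icc 1 N, (∏ t ∈ H, g (n + t)) * (200 * (∑ i ∈ H, eP (n + i)) - 51 * (H.card : ℝ) + 1 / 2) ≤
      if (51 * H.card ≤ 200 * (H.filter (fun i => (n + i).Prime)).card ∧ ∀ t ∈ H, Ro z (n + t)) then
        200 * (H.card : ℝ) + 1 else 0 := by
    intro n _
    have hG0 : 0 ≤ ∏ t ∈ H, g (n + t) := prod_nonneg fun t _ => (hg _).1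
    have hG1 : ∏ t ∈ H, g (n + t) ≤ 1 := prod_le_one (fun t _ => (hg _).1) fun t _ => (hg _).2
    rw [hsum n]
    set q := (H.filter (fun i => (n + i).Prime)).card with hq
    have hqH : (q : ℝ) ≤ H.card := by exact_mod_cast card_filter_le _ _
    have hq0 : (0 : ℝ) ≤ q := Nat.cast_nonneg _
    have hH0 : (0 : ℝ) ≤ H.card := Nat.cast_nonneg _
    split_ifs with h
    · have h1 : 200 * (q : ℝ) - 51 * H.card + 1 / 2 ≤ 200 * H.card + 1 := by linarith
      by_cases h2 : 0 ≤ 200 * (q : ℝ) - 51 * H.card + 1 / 2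
      · calc (∏ t ∈ H, g (n + t)) * (200 * (q : ℝ) - 51 * H.card + 1 / 2) ≤ 1 * (200 * (q : ℝ) - 51 * H.card + 1 / 2) :=
              mul_le_mul_of_nonneg_right hG1 h2
          _ ≤ _ := by linarith
      · have := mul_nonpos_of_nonneg_of_nonpos hG0 (not_le.1 h2).le
        linarith
    · by_cases h2 : ∀ t ∈ H, Ro z (n + t)
      · have h3 : 200 * q < 51 * H.card := by
          by_contra hle
          exact h ⟨not_lt.1 hle, h2⟩
        have h4 : 200 * (q : ℝ) + 1 ≤ 51 * H.card := by exact_mod_cast h3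
        exact mul_nonpos_of_nonneg_of_nonpos hG0 (by linarith)
      · push Not at h2
        obtain ⟨t, ht, h3⟩ := h2
        have h4 : ∏ t ∈ H, g (n + t) = 0 := by
          refine prod_eq_zero ht ?_
          by_contra h5
          exact h3 (hgR _ h5)
        rw [h4, zero_mul]
  refine (sum_le_sum hpt).trans (le_of_eq ?_)
  rw [← sum_filter, sum_const, nsmul_eq_mul]
  unfold cntV
  ring

lemma T_geV {g : ℕ → ℝ} (hg : ∀ m, 0 ≤ g m ∧ g m ≤ 1) {N : ℕ} {M E : ℝ} (hM : 1 ≤ M) (hE : 0 ≤ E)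
    (hgP : ∀ m : ℕ, m ≤ 2 * N → m.Prime → E < m → g m = 1 / M) (H : Finset ℕ) (hH : ∀ t ∈ H, t ≤ N) :
    ∑ i ∈ H, (200 / M) * (∑ n ∈ Icc 1 N, eP (n + i) * ∏ t ∈ H.erase i, g (n + t) - E) -
      (51 * (H.card : ℝ) - 1 / 2) * ∑ n ∈ Icc 1 N, ∏ t ∈ H, g (n + t) ≤
    ∑ n ∈ Icc 1 N, (∏ t ∈ H, g (n + t)) * (200 * (∑ i ∈ H, eP (n + i)) - 51 * (H.card : ℝ) + 1 / 2) := by
  have hM0 : 0 < M := by linarith
  have e1 : ∑ n ∈ Icc 1 N, (∏ t ∈ H, g (n + t)) * (200 * (∑ i ∈ H, eP (n + i)) - 51 * (H.card : ℝ) + 1 / 2) =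
      ∑ i ∈ H, 200 * ∑ n ∈ Icc 1 N, (∏ t ∈ H, g (n + t)) * eP (n + i) -
      (51 * (H.card : ℝ) - 1 / 2) * ∑ n ∈ Icc 1 N, ∏ t ∈ H, g (n + t) := by
    rw [← mul_sum, sum_comm, mul_sum, mul_sum, ← sum_sub_distrib]
    refine sum_congr rfl fun n _ => ?_
    rw [← mul_sum]
    ring
  rw [e1]
  refine sub_le_sub_right (sum_le_sum fun i hi => ?_) _
  have hcard : (((Icc 1 N).filter (fun n : ℕ => ((n + i : ℕ) : ℝ) ≤ E)).card : ℝ) ≤ E := by
    have h1 : (Icc 1 N).filter (fun n : ℕ => ((n + i : ℕ) : ℝ) ≤ E) ⊆ Icc 1 ⌊E⌋₊ := by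
      intro n hn
      rw [mem_filter, mem_Icc] at hn
      rw [mem_Icc]
      refine ⟨hn.1.1, Nat.le_floor ?_⟩
      have := hn.2
      push_cast at this
      have h0 : (0 : ℝ) ≤ i := Nat.cast_nonneg _
      linarith
    have h2 := card_le_card h1
    rw [Nat.card_Icc, Nat.add_sub_cancel] at h2
    have h3 : (((Icc 1 N).filter (fun n : ℕ => ((n + i : ℕ) : ℝ) ≤ E)).card : ℝ) ≤ ⌊E⌋₊ := by exact_mod_cast h2
    exact h3.trans (Nat.floor_le hE)
  have hpt : ∀ n ∈ Icc 1 N, 1 / M * (eP (n + i) * ∏ t ∈ H.erase i, g (n + t)) -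
      1 / M * (if ((n + i : ℕ) : ℝ) ≤ E then (1 : ℝ) else 0) ≤ (∏ t ∈ H, g (n + t)) * eP (n + i) := by
    intro n hn
    rw [mem_Icc] at hn
    have hG0 : 0 ≤ ∏ t ∈ H.erase i, g (n + t) := prod_nonneg fun t _ => (hg _).1
    have hG1 : ∏ t ∈ H.erase i, g (n + t) ≤ 1 := prod_le_one (fun t _ => (hg _).1) fun t _ => (hg _).2
    have hP : ∏ t ∈ H, g (n + t) = g (n + i) * ∏ t ∈ H.erase i, g (n + t) := (mul_prod_erase H _ hi).symm
    obtain ⟨p0, p1⟩ := eP_bd (n + i)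
    obtain ⟨g0, g1⟩ := hg (n + i)
    have hM1 : 0 ≤ 1 / M := by positivity
    split_ifs with h
    · have h1 : eP (n + i) * ∏ t ∈ H.erase i, g (n + t) ≤ 1 := mul_le_one₀ p1 hG0 hG1
      have h2 : 1 / M * (eP (n + i) * ∏ t ∈ H.erase i, g (n + t)) ≤ 1 / M * 1 := mul_le_mul_of_nonneg_left h1 hM1
      have h3 : 0 ≤ (∏ t ∈ H, g (n + t)) * eP (n + i) := by
        rw [hP]
        positivity
      linarith
    · rw [mul_zero, sub_zero]
      by_cases hp : (n + i).Prime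
      · have h1 := hgP (n + i) (by have := hH i hi; omega) hp (not_le.1 h)
        rw [hP, h1]
        apply le_of_eq
        ring
      · have : eP (n + i) = 0 := by unfold eP; rw [if_neg hp]
        rw [this]
        simp
  have h1 := sum_le_sum hpt
  rw [sum_sub_distrib, ← mul_sum, ← mul_sum, ← sum_filter, sum_const, nsmul_eq_mul, mul_one] at h1
  have h2 : 1 / M * (((Icc 1 N).filter (fun n : ℕ => ((n + i : ℕ) : ℝ) ≤ E)).card : ℝ) ≤ 1 / M * E :=
    mul_le_mul_of_nonneg_left hcard (by positivity)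
  have h3 : 200 / M * (∑ n ∈ Icc 1 N, eP (n + i) * ∏ t ∈ H.erase i, g (n + t) - E) =
      200 * (1 / M * ∑ n ∈ Icc 1 N, eP (n + i) * ∏ t ∈ H.erase i, g (n + t) - 1 / M * E) := by ring
  rw [h3]
  linarith

/-- the final computation, first part -/
lemma calc1V {k : ℕ} {x₁ a M n L u V PT x S S0 T R P E : ℝ} (hx1 : 0 < x₁) (hx16 : x₁ ≤ 1 / 100) (ha : 0 < a)
    (hI : a + (51 * (k + 1) - 1 / 2) * (1 + x₁) ^ (k + 2) ≤ 200 * (k + 1) * (1 - x₁) ^ (k + 1) * a)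
    (hM : 2 ≤ M) (hn : 0 < n) (hL : 1 ≤ L) (hu : 0 ≤ u) (hu1 : (1 + x₁) * u ≤ 1) (hV : 0 ≤ V) (hPT : 0 ≤ PT)
    (hx : 0 ≤ x) (hE : E ≤ x)
    (h1 : u * V * (M * (a * L)) ≤ 1)
    (hR : R ≤ (1 + x₁) * (n * (PT * V ^ (k + 1))) + x)
    (hP : (1 - x₁) * (n / L * (PT * V ^ k)) - x ≤ P)
    (hS : ((1 - x₁) * u) ^ k * P - k * x ≤ S)
    (hS0 : S0 ≤ ((1 + x₁) * u) ^ (k + 1) * R + (k + 1) * x)
    (hT : (k + 1) * ((200 / M) * (S - E)) - (51 * (k + 1) - 1 / 2) * S0 ≤ T) :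
    (u * V) ^ k * (n / L) * PT / M - 151 * (k + 1) * (k + 2) * x ≤ T := by
  have hL0 : 0 < L := by linarith
  have hM0 : 0 < M := by linarith
  obtain ⟨Y, hY⟩ : ∃ Y : ℝ, Y = (u * V) ^ k * (n / L) * PT := ⟨_, rfl⟩
  have hY0 : 0 ≤ Y := by rw [hY]; positivity
  have hk0 : (0 : ℝ) ≤ k := Nat.cast_nonneg _
  have hc0 : (0 : ℝ) ≤ 51 * (k + 1) - 1 / 2 := by linarith
  -- lower bound for `S`
  have a1 : (1 - x₁) ^ (k + 1) * Y - (k + 1) * x ≤ S := by
    have b1 : 0 ≤ ((1 - x₁) * u) ^ k := pow_nonneg (mul_nonneg (by linarith) hu) _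
    have b2 : ((1 - x₁) * u) ^ k ≤ 1 := by
      apply pow_le_one₀ (mul_nonneg (by linarith) hu)
      refine le_trans ?_ hu1
      exact mul_le_mul_of_nonneg_right (by linarith) hu
    have b3 := mul_le_mul_of_nonneg_left hP b1
    have b4 : ((1 - x₁) * u) ^ k * ((1 - x₁) * (n / L * (PT * V ^ k)) - x) =
        (1 - x₁) ^ (k + 1) * Y - ((1 - x₁) * u) ^ k * x := by
      rw [hY]
      simp only [mul_pow, pow_succ]
      ring
    have b5 : ((1 - x₁) * u) ^ k * x ≤ 1 * x := mul_le_mul_of_nonneg_right b2 hx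
    rw [b4] at b3
    have b6 : ((k : ℝ) + 1) * x = k * x + x := by ring
    rw [b6]
    linarith
  -- upper bound for `S0`
  have a2 : S0 ≤ (1 + x₁) ^ (k + 2) * (1 / (M * a)) * Y + (k + 2) * x := by
    have b1 : 0 ≤ ((1 + x₁) * u) ^ (k + 1) := by positivity
    have b2 : ((1 + x₁) * u) ^ (k + 1) ≤ 1 := pow_le_one₀ (by positivity) hu1
    have b3 := mul_le_mul_of_nonneg_left hR b1
    have b4 : ((1 + x₁) * u) ^ (k + 1) * ((1 + x₁) * (n * (PT * V ^ (k + 1))) + x) =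
        (1 + x₁) ^ (k + 2) * ((u * V * L) * Y) + ((1 + x₁) * u) ^ (k + 1) * x := by
      have hLL : u * V * L * Y = (u * V) ^ (k + 1) * n * PT := by
        rw [hY, pow_succ]
        field_simp
      rw [hLL]
      simp only [mul_pow, pow_succ]
      ring
    have b5 : ((1 + x₁) * u) ^ (k + 1) * x ≤ 1 * x := mul_le_mul_of_nonneg_right b2 hx
    have b6 : u * V * L ≤ 1 / (M * a) := by
      rw [le_div_iff₀ (by positivity)]
      have : u * V * L * (M * a) = u * V * (M * (a * L)) := by ring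
      rw [this]
      exact h1
    have b7 : (1 + x₁) ^ (k + 2) * ((u * V * L) * Y) ≤ (1 + x₁) ^ (k + 2) * (1 / (M * a)) * Y := by
      rw [mul_assoc ((1 + x₁) ^ (k + 2)) (1 / (M * a)) Y]
      apply mul_le_mul_of_nonneg_left _ (by positivity)
      exact mul_le_mul_of_nonneg_right b6 hY0
    rw [b4] at b3
    have b8 : ((k : ℝ) + 2) * x = (k + 1) * x + x := by ring
    rw [b8]
    linarith
  have a3 : ((k : ℝ) + 1) * (200 / M * ((1 - x₁) ^ (k + 1) * Y - (k + 2) * x)) ≤ (k + 1) * (200 / M * (S - E)) := by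
    apply mul_le_mul_of_nonneg_left _ (by positivity)
    apply mul_le_mul_of_nonneg_left _ (by positivity)
    have : ((k : ℝ) + 2) * x = (k + 1) * x + x := by ring
    linarith
  have a4 : (51 * ((k : ℝ) + 1) - 1 / 2) * S0 ≤
      (51 * (k + 1) - 1 / 2) * ((1 + x₁) ^ (k + 2) * (1 / (M * a)) * Y + (k + 2) * x) :=
    mul_le_mul_of_nonneg_left a2 hc0
  have a5 : Y / M ≤ ((k : ℝ) + 1) * (200 / M * ((1 - x₁) ^ (k + 1) * Y)) -
      (51 * (k + 1) - 1 / 2) * ((1 + x₁) ^ (k + 2) * (1 / (M * a)) * Y) := by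
    have hD0 : 0 ≤ Y / (M * a) := by positivity
    have b1 := mul_le_mul_of_nonneg_right hI hD0
    have b2 : a * (Y / (M * a)) = Y / M := by
      field_simp
    have b3 : 200 * ((k : ℝ) + 1) * (1 - x₁) ^ (k + 1) * a * (Y / (M * a)) =
        ((k : ℝ) + 1) * (200 / M * ((1 - x₁) ^ (k + 1) * Y)) := by
      have e : 200 * ((k : ℝ) + 1) * (1 - x₁) ^ (k + 1) * a * (Y / (M * a)) =
          200 * ((k : ℝ) + 1) * (1 - x₁) ^ (k + 1) * (a * (Y / (M * a))) := by ring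
      rw [e, b2]
      ring
    have b4 : (51 * ((k : ℝ) + 1) - 1 / 2) * ((1 + x₁) ^ (k + 2) * (1 / (M * a)) * Y) =
        (51 * (k + 1) - 1 / 2) * (1 + x₁) ^ (k + 2) * (Y / (M * a)) := by ring
    rw [add_mul, b2, b3] at b1
    rw [b4]
    linarith
  have a6 : 200 / M ≤ 100 := by
    rw [div_le_iff₀ hM0]
    linarith
  have a7 : ((k : ℝ) + 1) * (200 / M * ((k + 2) * x)) ≤ (k + 1) * (100 * ((k + 2) * x)) := by
    apply mul_le_mul_of_nonneg_left _ (by positivity)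
    exact mul_le_mul_of_nonneg_right a6 (by positivity)
  have a8 : (51 * ((k : ℝ) + 1) - 1 / 2) * ((k + 2) * x) ≤ (51 * (k + 1)) * ((k + 2) * x) :=
    mul_le_mul_of_nonneg_right (by linarith) (by positivity)
  rw [← hY]
  have e1 : ((k : ℝ) + 1) * (200 / M * ((1 - x₁) ^ (k + 1) * Y - (k + 2) * x)) =
      ((k : ℝ) + 1) * (200 / M * ((1 - x₁) ^ (k + 1) * Y)) - ((k : ℝ) + 1) * (200 / M * ((k + 2) * x)) := by ring
  have e2 : (51 * ((k : ℝ) + 1) - 1 / 2) * ((1 + x₁) ^ (k + 2) * (1 / (M * a)) * Y + (k + 2) * x) =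
      (51 * (k + 1) - 1 / 2) * ((1 + x₁) ^ (k + 2) * (1 / (M * a)) * Y) + (51 * (k + 1) - 1 / 2) * ((k + 2) * x) := by ring
  have e3 : 151 * ((k : ℝ) + 1) * (k + 2) * x = (k + 1) * (100 * ((k + 2) * x)) + (51 * (k + 1)) * ((k + 2) * x) := by ring
  rw [e1] at a3
  rw [e2] at a4
  rw [e3]
  linarith

/-- the final computation, second part -/
lemma calc2V {k : ℕ} {M n L a PT CTT x T cs cp Cn : ℝ} (hM : 2 ≤ M) (hn : 0 < n) (hL : 1 ≤ L) (hcs : 0 < cs)
    (hcp : 0 < cp) (ha : cs / L ≤ a) (hPT : cp ≤ PT) (hCT : CTT ≤ 2 * PT) (hx : x = n / L ^ (k + 2))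
    (hLb : 302 * M * (k + 1) * (k + 2) / (cs ^ k * cp) ≤ L)
    (hT : a ^ k * (n / L) * PT / M - 151 * (k + 1) * (k + 2) * x ≤ T) (hC : T ≤ (200 * (k + 1) + 1) * Cn) :
    cs ^ k / (4 * M * (200 * (k + 1) + 1)) * CTT * (n / L ^ (k + 1)) ≤ Cn := by
  have hL0 : 0 < L := by linarith
  have hM0 : 0 < M := by linarith
  have hPT0 : 0 < PT := by linarith
  have a1 : cs ^ k * PT * (n / L ^ (k + 1)) ≤ a ^ k * (n / L) * PT := by
    have b1 : (cs / L) ^ k ≤ a ^ k := pow_le_pow_left₀ (by positivity) ha _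
    calc cs ^ k * PT * (n / L ^ (k + 1)) = (cs / L) ^ k * (n / L) * PT := by
          rw [div_pow, pow_succ]
          field_simp
      _ ≤ _ := by gcongr
  obtain ⟨Y, hY⟩ : ∃ Y : ℝ, Y = cs ^ k * PT * (n / L ^ (k + 1)) := ⟨_, rfl⟩
  have hY0 : 0 ≤ Y := by rw [hY]; positivity
  have a2 : 151 * (k + 1) * (k + 2) * x ≤ Y / (2 * M) := by
    have b1 : cs ^ k * cp * (n / L ^ (k + 1)) ≤ Y := by
      rw [hY]
      gcongr
    have b2 : x * L = n / L ^ (k + 1) := by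
      rw [hx, show k + 2 = (k + 1) + 1 by ring, pow_succ]
      field_simp
    rw [div_le_iff₀ (by positivity)] at hLb
    have hx0 : 0 ≤ x := by rw [hx]; positivity
    have b3 := mul_le_mul_of_nonneg_right hLb hx0
    rw [le_div_iff₀ (by positivity)]
    calc 151 * (k + 1) * (k + 2) * x * (2 * M) = 302 * M * (k + 1) * (k + 2) * x := by ring
      _ ≤ L * (cs ^ k * cp) * x := b3
      _ = cs ^ k * cp * (x * L) := by ring
      _ = cs ^ k * cp * (n / L ^ (k + 1)) := by rw [b2]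
      _ ≤ Y := b1
  have a3 : Y / M ≤ a ^ k * (n / L) * PT / M := by
    rw [hY]
    exact div_le_div_of_nonneg_right a1 hM0.le
  have a4 : Y / (2 * M) ≤ (200 * (k + 1) + 1) * Cn := by
    have : Y / M = Y / (2 * M) + Y / (2 * M) := by field_simp; ring
    linarith
  have a5 : cs ^ k * CTT * (n / L ^ (k + 1)) ≤ 2 * Y := by
    calc cs ^ k * CTT * (n / L ^ (k + 1)) ≤ cs ^ k * (2 * PT) * (n / L ^ (k + 1)) := by gcongr
      _ = 2 * Y := by rw [hY]; ring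
  rw [div_le_iff₀ (by positivity)] at a4
  have hk : (0 : ℝ) < 200 * ((k : ℝ) + 1) + 1 := by positivity
  calc cs ^ k / (4 * M * (200 * (k + 1) + 1)) * CTT * (n / L ^ (k + 1)) =
        (cs ^ k * CTT * (n / L ^ (k + 1))) / (4 * M * (200 * (k + 1) + 1)) := by ring
    _ ≤ 2 * Y / (4 * M * (200 * (k + 1) + 1)) := div_le_div_of_nonneg_right a5 (by positivity)
    _ ≤ Cn := by
        rw [div_le_iff₀ (by positivity)]
        linarith

end Pool.Agent.Y822.V
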