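import Mathlib
import Pool.Agent.Y822.V.Stp
import Pool.Agent.Y822.Q.Wgt

/-! The weights of level `N ^ (51/100)`. -/

set_option autoImplicit false

namespace Pool.Agent.Y822.V

open Finset Filter
open Pool.Agent.Y822
open Pool.Agent.Y822.Q (th VP_PP VP_bd Vz_pos Vz_up GG_le_EE EE_le choose_b th_le)
open Pool.Agent.Y822.Par3 Pool.Agent.Y822.QF
open Pool.Agent.W41 (JJ JJ_lt JJ_le)
open Pool.Agent.H373R2.T7 (pz Vz mem_pz)
open Pool.Agent.W25.UB (GG sq)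

open Classical in
/-- restriction to the `n` with `n + t` odd -/
noncomputable def foV (t : ℕ) (f : ℕ → ℝ) (n : ℕ) : ℝ := if Odd (n + t) then f n else 0

/-- the error functional -/
noncomputable def EV (y N : ℕ) (ε₁ δ' : ℝ) (TT : Finset ℕ) (f : ℕ → ℝ) (t : ℕ) : ℝ :=
  ZZ y N (SSm N y ε₁ δ') TT (foV t f) t + LD y ⌊(N : ℝ) ^ δ'⌋₊ N (foV t f) t

/-- the sieve level -/
lemma z_factsV (x : ℝ) (hx : 0 < x) (hx8 : x ≤ 1 / 100) (N : ℕ) (hN : 3 ≤ N)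
    (h3 : 1 / x ≤ Real.log N) : ∃ z : ℕ, 1 ≤ z ∧ (51 / 200 - 2 * x) * Real.log N ≤ Real.log z ∧
      ((z ^ 2 : ℕ) : ℝ) ≤ (N : ℝ) ^ (51 / 100 - 2 * x) ∧ (z : ℝ) ≤ Real.exp (Real.log N / 2) := by
  have hN0 : (0 : ℝ) < N := by positivity
  have hN1 : (1 : ℝ) ≤ N := by exact_mod_cast (by omega : 1 ≤ N)
  have hL0 : 0 ≤ Real.log N := Real.log_nonneg hN1
  obtain ⟨z, hz⟩ : ∃ z : ℕ, z = ⌊(N : ℝ) ^ (51 / 200 - x)⌋₊ := ⟨_, rfl⟩
  have hz1 : (z : ℝ) ≤ (N : ℝ) ^ (51 / 200 - x) := by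
    rw [hz]; exact Nat.floor_le (by positivity)
  have hz2 : (N : ℝ) ^ (51 / 200 - 2 * x) ≤ z := by
    have g1 : (N : ℝ) ^ (51 / 200 - x) < z + 1 := by rw [hz]; exact Nat.lt_floor_add_one _
    have g2 : (N : ℝ) ^ (51 / 200 - x) = (N : ℝ) ^ (51 / 200 - 2 * x) * (N : ℝ) ^ x := by
      rw [← Real.rpow_add hN0]; congr 1; ring
    have g3 : 2 ≤ (N : ℝ) ^ x := by
      rw [Real.rpow_def_of_pos hN0]
      have g4 : 1 ≤ Real.log N * x := by
        rw [div_le_iff₀ hx] at h3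
        linarith
      have := Real.add_one_le_exp (Real.log N * x)
      linarith
    have g4 : 1 ≤ (N : ℝ) ^ (51 / 200 - 2 * x) := Real.one_le_rpow hN1 (by linarith)
    rw [g2] at g1
    nlinarith
  have hz0 : (1 : ℝ) ≤ z := le_trans (Real.one_le_rpow hN1 (by linarith)) hz2
  refine ⟨z, by exact_mod_cast hz0, ?_, ?_, ?_⟩
  · rw [← Real.log_rpow hN0]
    exact Real.log_le_log (by positivity) hz2
  · push_cast
    calc (z : ℝ) ^ 2 ≤ ((N : ℝ) ^ (51 / 200 - x)) ^ 2 := pow_le_pow_left₀ (by positivity) hz1 2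
      _ = (N : ℝ) ^ (51 / 100 - 2 * x) := by
          rw [← Real.rpow_natCast, ← Real.rpow_mul hN0.le]
          congr 1
          push_cast
          ring
  · refine hz1.trans ?_
    rw [Real.rpow_def_of_pos hN0]
    apply Real.exp_le_exp.2
    have : Real.log N * (51 / 200 - x) ≤ Real.log N * (1 / 2) :=
      mul_le_mul_of_nonneg_left (by linarith) hL0
    linarith

/-- the interface -/
theorem wgtV (ε δ' : ℝ) (hε : 0 < ε) (hε1 : ε ≤ 1) (hδ : 0 < δ') (hδ' : δ' ≤ 1 / 100) :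
    ∃ ε₁ : ℝ, 0 < ε₁ ∧ ε₁ ≤ 1 / 2 ∧ ∃ M : ℝ, 2 ≤ M ∧ ∃ cs : ℝ, 0 < cs ∧ ∃ K : ℝ, 0 < K ∧ ∀ κ : ℝ, 0 < κ → κ ≤ 1 →
    ∀ᶠ N : ℕ in atTop, ∃ (g : ℕ → ℝ) (u : ℝ) (TT : Finset ℕ),
    (∀ e ∈ TT, ((e : ℝ) ≤ (N : ℝ) ^ (111 / 200 : ℝ) ∧ ((e : ℝ) ≤ (N : ℝ) ^ (51 / 100 : ℝ) ∨ Pool.Agent.W23.DC.FacO N (1 / 500) e)) ∧
      1 < e ∧ Squarefree e ∧ Ro (zN ε₁ N) e) ∧
    (∀ m, 0 ≤ g m ∧ g m ≤ 1) ∧ 0 ≤ u ∧ (1 + ε) * u ≤ 1 ∧
    u * Vz (yN κ N) * (M * ((51 / 200 - 2 * δ') * Real.log N)) ≤ 1 ∧ cs / Real.log N ≤ u * Vz (yN κ N) ∧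
    (∀ m, g m ≠ 0 → Ro ⌊(N : ℝ) ^ (ε₁ / 2)⌋₊ m) ∧
    (∀ m : ℕ, m ≤ 2 * N → m.Prime → Real.exp (Real.log N / 2) < m → g m = 1 / M) ∧
    (∀ f : ℕ → ℝ, (∀ n, 0 ≤ f n ∧ f n ≤ 1) → ∀ t ≤ N,
      |∑ n ∈ Icc 1 N, f n * g (n + t) - u * ∑ n ∈ Icc 1 N, f n * ro (yN κ N) (n + t)| ≤
        ε * (u * ∑ n ∈ Icc 1 N, f n * ro (yN κ N) (n + t)) +
          4 * Real.log N * (K * EV (yN κ N) N ε₁ δ' TT f t)) := by
  classical
  obtain ⟨C0, hC0, STEP⟩ := stepV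
  obtain ⟨cz, hcz, VZ⟩ := Vz_sharp
  obtain ⟨b, hb1, hb2, hb3⟩ := choose_b C0 cz δ' ε hcz hδ hε
  have hC0r : (1 : ℝ) ≤ C0 := by exact_mod_cast hC0
  have hbr : (1 : ℝ) ≤ b := by exact_mod_cast hb2
  have hCb : (1 : ℝ) ≤ C0 * b := one_le_mul_of_one_le_of_one_le hC0r hbr
  obtain ⟨ε₁, hε₁⟩ : ∃ ε₁ : ℝ, ε₁ = δ' / (2 * C0 * b) := ⟨_, rfl⟩
  have hε₁0 : 0 < ε₁ := by rw [hε₁]; positivity
  have hε₁δ : ε₁ ≤ δ' := by
    rw [hε₁]
    exact div_le_self hδ.le (by linarith)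
  have hε₁m : ε₁ * (2 * C0 * b) = δ' := by rw [hε₁]; field_simp
  obtain ⟨CE, hCE⟩ : ∃ CE : ℝ, CE = (4 * C0 * b / (cz * δ')) ^ 3 := ⟨_, rfl⟩
  have hCE0 : 0 < CE := by rw [hCE]; positivity
  rw [← hCE] at hb3
  obtain ⟨m₀, hm₀⟩ : ∃ m₀ : ℕ, m₀ = ⌈4 / ε₁⌉₊ := ⟨_, rfl⟩
  have hm₀1 : 1 ≤ m₀ := by rw [hm₀]; exact Nat.one_le_ceil_iff.2 (by positivity)
  have hm₀2 : 4 / ε₁ ≤ m₀ := by rw [hm₀]; exact Nat.le_ceil _
  obtain ⟨M, hM⟩ : ∃ M : ℝ, M = 4 ^ m₀ := ⟨_, rfl⟩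
  have hM4 : 4 ≤ M := by
    rw [hM]
    calc (4 : ℝ) = 4 ^ 1 := (pow_one _).symm
      _ ≤ 4 ^ m₀ := pow_le_pow_right₀ (by norm_num) hm₀1
  have hM0 : 0 < M := by linarith
  refine ⟨ε₁, hε₁0, by linarith, M, by linarith, cz / (CE * M), by positivity, 3 ^ m₀ + CE, by positivity, ?_⟩
  intro κ hκ hκ1
  have e1 := ev_logN (eventually_ge_atTop (max 1 (max (2 / ε₁) (1 / δ'))))
  have e2 := ev_logN (Real.tendsto_log_atTop.eventually (eventually_ge_atTop (max 1 (2 / ε₁))))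
  filter_upwards [yN_facts κ hκ hκ1 (max C0 3) 8, e1, e2, eventually_ge_atTop 3, zN_facts ε₁ hε₁0 (by linarith) 3] with N hyf f1 f2 hN3 hzf
  obtain ⟨zf1, zf2, zf3, zf4, zf5⟩ := hzf
  obtain ⟨y1, y2, y3, y4, y5⟩ := hyf
  set y := yN κ N with hy
  set L := Real.log N with hL
  have hL1 : 1 ≤ L := (le_max_left _ _).trans f1
  have hL2 : 2 / ε₁ ≤ L := ((le_max_left _ _).trans (le_max_right _ _)).trans f1
  have hL3 : 1 / δ' ≤ L := ((le_max_right _ _).trans (le_max_right _ _)).trans f1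
  have hl1 : 1 ≤ Real.log L := (le_max_left _ _).trans f2
  have hl2 : 2 / ε₁ ≤ Real.log L := (le_max_right _ _).trans f2
  have hL0 : 0 < L := by linarith
  have hN0 : (0 : ℝ) < N := by positivity
  have hNe : (N : ℝ) = Real.exp L := by rw [hL, Real.exp_log hN0]
  have hNr : (1 : ℝ) ≤ N := by exact_mod_cast (by omega : 1 ≤ N)
  have hNpow : ∀ x : ℝ, (N : ℝ) ^ x = Real.exp (x * L) := by
    intro x
    rw [Real.rpow_def_of_pos hN0, ← hL, mul_comm]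
  have hC0y : C0 ≤ y := (le_max_left _ _).trans y5
  have hy3 : 3 ≤ y := (le_max_right _ _).trans y5
  obtain ⟨z, z1, z2, z4, z5⟩ := z_factsV δ' hδ hδ' N hN3 hL3
  rw [← hL] at z2 z5
  obtain ⟨z₀, hz₀⟩ : ∃ z₀ : ℕ, z₀ = zN ε₁ N := ⟨_, rfl⟩
  have hz₀le : (z₀ : ℝ) ≤ Real.exp (ε₁ * L) := by
    rw [hz₀, ← hNpow]
    exact (zN_lt (by omega)).le
  have hE2 : 2 ≤ Real.exp (ε₁ / 2 * L) := by
    have h1 := Real.add_one_le_exp (ε₁ / 2 * L)
    have h2 : 1 ≤ ε₁ / 2 * L := by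
      rw [div_le_iff₀ hε₁0] at hL2
      linarith
    linarith
  have hz₀ge : Real.exp (ε₁ / 2 * L) ≤ z₀ := by
    have h1 := zf4
    rw [← hz₀] at h1 zf2
    have h3 : (0 : ℝ) < z₀ := by exact_mod_cast (by omega : 0 < z₀)
    rwa [Real.le_log_iff_exp_le h3] at h1
  have hz₀2 : 2 ≤ z₀ := by exact_mod_cast hE2.trans hz₀ge
  have hz₀0 : (0 : ℝ) < z₀ := by positivity
  have hlogz₀ : ε₁ / 2 * L ≤ Real.log z₀ := by
    rw [Real.le_log_iff_exp_le hz₀0]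
    exact hz₀ge
  have hlogz₀' : Real.log z₀ ≤ ε₁ * L := by
    rw [Real.log_le_iff_le_exp hz₀0]
    exact hz₀le
  have hyz₀ : y ≤ z₀ := by
    rw [hz₀]
    apply le_zN
    rw [hNpow]
    refine lt_of_le_of_lt y1 (Real.exp_lt_exp.2 ?_)
    rw [div_lt_iff₀ (by linarith)]
    have h1 : κ * L ≤ 1 * L := mul_le_mul_of_nonneg_right hκ1 hL0.le
    have h2 : 2 ≤ ε₁ * Real.log L := by
      rw [div_le_iff₀ hε₁0] at hl2
      linarith
    have h3 : 2 * L ≤ ε₁ * Real.log L * L := mul_le_mul_of_nonneg_right h2 hL0.le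
    linarith
  have hz₀3 : 3 ≤ z₀ := hy3.trans hyz₀
  have hexpL2 : Real.exp (ε₁ * L) ≤ Real.exp (L / 2) := by
    apply Real.exp_le_exp.2
    have : ε₁ * L ≤ 1 / 2 * L := mul_le_mul_of_nonneg_right (by linarith) hL0.le
    linarith
  have hexpLN : Real.exp (L / 2) ≤ N := by
    rw [hNe]
    exact Real.exp_le_exp.2 (by linarith)
  have hz₀N : z₀ ≤ N := by exact_mod_cast (hz₀le.trans hexpL2).trans hexpLN
  have hzN : z ^ 2 ≤ N := by
    have h1 : ((z ^ 2 : ℕ) : ℝ) ≤ N := by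
      refine z4.trans ?_
      calc (N : ℝ) ^ (51 / 100 - 2 * δ') ≤ (N : ℝ) ^ (1 : ℝ) := Real.rpow_le_rpow_of_exponent_le hNr (by linarith)
        _ = N := Real.rpow_one _
    exact_mod_cast h1
  have hzz : z ≤ z ^ 2 := by nlinarith
  -- the product bound
  have hEEN : EE z₀ N ≤ CE := by
    refine (EE_le z₀ N hz₀N).trans ?_
    rw [hCE]
    have hVN := Vz_pos N
    refine pow_le_pow_left₀ (div_nonneg (Vz_pos z₀).le hVN.le) ?_ 3
    have h1 := Vz_up z₀ (by omega)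
    have h2 := VZ N hN3
    rw [← hL] at h2
    have h3 : Vz z₀ ≤ 1 / (ε₁ / 2 * L) := by
      rw [le_div_iff₀ (by positivity)]
      calc Vz z₀ * (ε₁ / 2 * L) ≤ Vz z₀ * Real.log z₀ := mul_le_mul_of_nonneg_left hlogz₀ (Vz_pos z₀).le
        _ ≤ 1 := by linarith
    calc Vz z₀ / Vz N ≤ (1 / (ε₁ / 2 * L)) / (cz / L) := by
          apply div_le_div₀ (by positivity) h3 (by positivity) h2
      _ = 2 / (cz * ε₁) := by field_simp
      _ = 4 * C0 * b / (cz * δ') := by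
          rw [← hε₁m]
          field_simp
          ring
  have hEEZ : EE z₀ (z ^ 2) ≤ CE := (EE_mono z₀ hzN).trans hEEN
  obtain ⟨G0, hG0⟩ : ∃ G0 : ℝ, G0 = GG (PP z₀ z) z := ⟨_, rfl⟩
  have hG1 : 1 ≤ G0 := by rw [hG0]; exact one_le_GG z₀ z z1
  have hGE : G0 ≤ CE := by
    rw [hG0]
    exact (GG_le_EE z₀ z).trans ((EE_mono z₀ (hzz.trans hzN)).trans hEEN)
  have hG00 : 0 < G0 := by linarith
  obtain ⟨c, hc, hc1, hc2, hc3⟩ := sel z₀ z z1
  rw [← hG0] at hc3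
  have hth0 : ∀ m, 0 ≤ th c (z ^ 2) m := hc1
  have hpow : 2 * N < z₀ ^ (m₀ + 1) := by
    have h4 : ((2 * N : ℕ) : ℝ) < ((z₀ ^ (m₀ + 1) : ℕ) : ℝ) := by
      push_cast
      calc (2 : ℝ) * N ≤ Real.exp (ε₁ / 2 * L) * Real.exp L := by
            rw [← hNe]
            exact mul_le_mul_of_nonneg_right hE2 hN0.le
        _ < Real.exp (ε₁ / 2 * L) * Real.exp (ε₁ / 2 * L * m₀) := by
            apply mul_lt_mul_of_pos_left _ (Real.exp_pos _)
            apply Real.exp_lt_exp.2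
            rw [div_le_iff₀ hε₁0] at hm₀2
            have h5 : 2 * L ≤ ε₁ / 2 * L * m₀ := by
              have h6 : 4 * L ≤ m₀ * ε₁ * L := mul_le_mul_of_nonneg_right hm₀2 hL0.le
              have h7 : ε₁ / 2 * L * m₀ = m₀ * ε₁ * L / 2 := by ring
              linarith
            linarith
        _ = Real.exp (ε₁ / 2 * L) ^ (m₀ + 1) := by
            rw [← Real.exp_add, ← Real.exp_nat_mul]
            congr 1
            push_cast
            ring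
        _ ≤ (z₀ : ℝ) ^ (m₀ + 1) := pow_le_pow_left₀ (Real.exp_pos _).le hz₀ge _
    exact_mod_cast h4
  have hTT : ∀ e ∈ TV z₀ (z ^ 2), ((e : ℝ) ≤ (N : ℝ) ^ (111 / 200 : ℝ) ∧
      ((e : ℝ) ≤ (N : ℝ) ^ (51 / 100 : ℝ) ∨ Pool.Agent.W23.DC.FacO N (1 / 500) e)) ∧
      1 < e ∧ Squarefree e ∧ Ro (zN ε₁ N) e := by
    intro e he
    unfold TV at he
    rw [mem_erase, mem_SD] at he
    obtain ⟨h1, ⟨h2, h3⟩, h4, h5⟩ := he
    have h6 : (e : ℝ) ≤ (N : ℝ) ^ (51 / 100 - 2 * δ') := le_trans (by exact_mod_cast h3) z4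
    refine ⟨⟨?_, Or.inl ?_⟩, by omega, h4, by rw [← hz₀]; exact h5⟩
    · exact h6.trans (Real.rpow_le_rpow_of_exponent_le hNr (by linarith))
    · exact h6.trans (Real.rpow_le_rpow_of_exponent_le hNr (by linarith))
  have hthM : ∀ m, 1 ≤ m → m ≤ 2 * N → th c (z ^ 2) m ≤ M := by
    intro m h1 h2
    refine (th_le hc hz₀2 h1 h2).trans ?_
    rw [hM]
    refine pow_le_pow_right₀ (by norm_num) ?_
    exact Nat.lt_succ_iff.1 (Nat.log_lt_of_lt_pow (by omega) hpow)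
  obtain ⟨hV0, hV1⟩ := VP_bd y z₀
  obtain ⟨g, hg⟩ : ∃ g : ℕ → ℝ, g = fun m => if 1 ≤ m ∧ m ≤ 2 * N then ro z₀ m * th c (z ^ 2) m / M else 0 := ⟨_, rfl⟩
  obtain ⟨u, hu⟩ : ∃ u : ℝ, u = VP (PP y z₀) / (G0 * M) := ⟨_, rfl⟩
  have hGM : 0 < G0 * M := by positivity
  have hGM2 : 2 ≤ G0 * M := by nlinarith
  have hu0 : 0 ≤ u := by rw [hu]; positivity
  have hu2 : u ≤ 1 / 2 := by
    rw [hu, div_le_div_iff₀ hGM (by norm_num)]
    linarith
  have huV : u * Vz y = Vz z₀ / (G0 * M) := by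
    rw [hu, div_mul_eq_mul_div, VP_PP hyz₀]
  refine ⟨g, u, TV z₀ (z ^ 2), ?_, ?_, hu0, ?_, ?_, ?_, ?_, ?_, ?_⟩
  · exact hTT
  · intro m
    rw [hg]
    simp only
    split_ifs with h
    · have h1 := hth0 m
      have h2 := hthM m h.1 h.2
      have h3 := ro_nonneg z₀ m
      have h4 := ro_le_one z₀ m
      constructor
      · positivity
      · rw [div_le_one hM0]
        calc ro z₀ m * th c (z ^ 2) m ≤ 1 * M := mul_le_mul h4 h2 h1 (by norm_num)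
          _ = M := one_mul _
    · exact ⟨le_rfl, zero_le_one⟩
  · calc (1 + ε) * u ≤ 2 * (1 / 2) := mul_le_mul (by linarith) hu2 hu0 (by norm_num)
      _ = 1 := by norm_num
  · rw [huV, div_mul_eq_mul_div, div_le_one hGM]
    have h1 := GG_low z₀ z z1
    rw [← hG0] at h1
    calc Vz z₀ * (M * ((51 / 200 - 2 * δ') * L)) = M * (((51 / 200 - 2 * δ') * L) * Vz z₀) := by ring
      _ ≤ M * (Real.log z * Vz z₀) := by
          apply mul_le_mul_of_nonneg_left _ hM0.le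
          exact mul_le_mul_of_nonneg_right z2 (Vz_pos z₀).le
      _ ≤ M * G0 := mul_le_mul_of_nonneg_left h1 hM0.le
      _ = G0 * M := mul_comm _ _
  · rw [huV]
    have h1 := VZ z₀ hz₀3
    have hlz : 0 < Real.log z₀ := Real.log_pos (by exact_mod_cast (by omega : 1 < z₀))
    have h2 : Real.log z₀ ≤ L := by
      have : ε₁ * L ≤ 1 * L := mul_le_mul_of_nonneg_right (by linarith) hL0.le
      linarith
    have h3 : cz / L ≤ Vz z₀ := (div_le_div_of_nonneg_left hcz.le hlz h2).trans h1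
    calc cz / (CE * M) / L = cz / L / (CE * M) := by ring
      _ ≤ Vz z₀ / (G0 * M) := by
          apply div_le_div₀ (Vz_pos z₀).le h3 hGM
          exact mul_le_mul_of_nonneg_right hGE hM0.le
  · intro m hm
    have hR' : Ro z₀ m := by
      by_contra hR
      apply hm
      rw [hg]
      simp only
      unfold ro
      rw [if_neg hR]
      simp
    intro p hp hpz
    refine hR' p hp (hpz.trans ?_)
    have h1 : (⌊(N : ℝ) ^ (ε₁ / 2)⌋₊ : ℝ) ≤ z₀ := by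
      refine (Nat.floor_le (by positivity)).trans ?_
      rw [hNpow]
      exact hz₀ge
    exact_mod_cast h1
  · intro m hm2 hmp hmz
    have hmz₀ : z₀ < m := by
      have : (z₀ : ℝ) < m := lt_of_le_of_lt (hz₀le.trans hexpL2) hmz
      exact_mod_cast this
    have hmz' : z < m := by
      have : (z : ℝ) < m := lt_of_le_of_lt z5 hmz
      exact_mod_cast this
    have hR : Ro z₀ m := by
      intro p hp hpz hpd
      rw [(Nat.prime_dvd_prime_iff_eq hp hmp).1 hpd] at hpz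
      omega
    have hth : th c (z ^ 2) m = 1 := by
      refine hc2 m fun p hp hpd => ?_
      have h1 := mem_PP.1 hp
      rw [(Nat.prime_dvd_prime_iff_eq h1.2 hmp).1 hpd] at h1
      omega
    rw [hg]
    simp only
    rw [if_pos ⟨hmp.one_lt.le, hm2⟩, hth]
    unfold ro
    rw [if_pos hR, one_mul]
  · intro f hf t ht
    have hlev : (2 ^ 2 ^ JJ z₀) ^ (C0 * b) ≤ ⌊(N : ℝ) ^ δ'⌋₊ := by
      apply Nat.le_floor
      push_cast
      have h1 : ((2 ^ 2 ^ JJ z₀ : ℕ) : ℝ) ≤ (z₀ : ℝ) ^ 2 := by exact_mod_cast JJ_le z₀ hz₀2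
      push_cast at h1
      calc ((2 : ℝ) ^ 2 ^ JJ z₀) ^ (C0 * b) ≤ ((z₀ : ℝ) ^ 2) ^ (C0 * b) := pow_le_pow_left₀ (by positivity) h1 _
        _ = (z₀ : ℝ) ^ (2 * C0 * b) := by rw [← pow_mul]; congr 1; ring
        _ ≤ Real.exp (ε₁ * L) ^ (2 * C0 * b) := pow_le_pow_left₀ hz₀0.le hz₀le _
        _ = (N : ℝ) ^ δ' := by
            rw [← Real.exp_nat_mul, hNpow, ← hε₁m]
            congr 1
            push_cast
            ring
    have hm : ∀ d ∈ SD z₀ (z ^ 2), d.primeFactors.card ≤ m₀ := by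
      intro d hd
      obtain ⟨⟨h1, h2⟩, h3, h4⟩ := mem_SD.1 hd
      by_contra hlt
      push Not at hlt
      have h5 : z₀ ^ (m₀ + 1) ≤ d := by
        calc z₀ ^ (m₀ + 1) ≤ z₀ ^ d.primeFactors.card := Nat.pow_le_pow_right (by omega) hlt
          _ = ∏ _p ∈ d.primeFactors, z₀ := by rw [prod_const]
          _ ≤ ∏ p ∈ d.primeFactors, p := prod_le_prod' fun p hp => by
              by_contra hle
              push Not at hle
              exact h4 p (Nat.prime_of_mem_primeFactors hp) hle.le (Nat.dvd_of_mem_primeFactors hp)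
          _ = d := Nat.prod_primeFactors_of_squarefree h3
      omega
    obtain ⟨f', hf'⟩ : ∃ f' : ℕ → ℝ, f' = foV t f := ⟨_, rfl⟩
    have hf'0 : ∀ n, 0 ≤ f' n := fun n => by
      rw [hf']
      unfold foV
      split_ifs
      · exact (hf n).1
      · exact le_rfl
    have hf'o : ∀ n, f' n ≠ 0 → Odd (n + t) := by
      intro n hn
      by_contra ho
      apply hn
      rw [hf']
      unfold foV
      rw [if_neg ho]
    have hy2 : 2 ≤ y := by omega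
    have hff : ∀ n, f n * ro y (n + t) = f' n * ro y (n + t) := by
      intro n
      rw [hf']
      unfold foV
      split_ifs with ho
      · rfl
      · have : ro y (n + t) = 0 := by
          unfold ro
          rw [if_neg]
          intro h
          exact h 2 Nat.prime_two hy2 (even_iff_two_dvd.1 (Nat.not_odd_iff_even.1 ho))
        rw [this, mul_zero, mul_zero]
    have hff0 : ∀ n, f n * ro z₀ (n + t) = f' n * ro z₀ (n + t) := by
      intro n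
      rw [hf']
      unfold foV
      split_ifs with ho
      · rfl
      · have : ro z₀ (n + t) = 0 := by
          unfold ro
          rw [if_neg]
          intro h
          exact h 2 Nat.prime_two hz₀2 (even_iff_two_dvd.1 (Nat.not_odd_iff_even.1 ho))
        rw [this, mul_zero, mul_zero]
    have h1 := STEP b y z₀ (z ^ 2) N hb1 hC0y hyz₀ c hc f' hf'0 t
    rw [hc3] at h1
    have hWe : ∑ n ∈ Icc 1 N, f n * ro y (n + t) = ∑ n ∈ Icc 1 N, f' n * ro y (n + t) :=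
      sum_congr rfl fun n _ => hff n
    rw [hWe]
    set W := ∑ n ∈ Icc 1 N, f' n * ro y (n + t) with hW
    have hW0 : 0 ≤ W := sum_nonneg fun n _ => mul_nonneg (hf'0 n) (ro_nonneg _ _)
    have h2 : ∑ n ∈ Icc 1 N, f n * g (n + t) = (∑ n ∈ Icc 1 N, f' n * (ro z₀ (n + t) * th c (z ^ 2) (n + t))) / M := by
      rw [sum_div]
      refine sum_congr rfl fun n hn => ?_
      rw [mem_Icc] at hn
      rw [hg]
      simp only
      rw [if_pos ⟨by omega, by omega⟩]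
      have e3 := hff0 n
      calc f n * (ro z₀ (n + t) * th c (z ^ 2) (n + t) / M) = (f n * ro z₀ (n + t)) * th c (z ^ 2) (n + t) / M := by ring
        _ = (f' n * ro z₀ (n + t)) * th c (z ^ 2) (n + t) / M := by rw [e3]
        _ = _ := by ring
    have h3 : u * W = (1 / G0 * (VP (PP y z₀) * W)) / M := by
      rw [hu]
      field_simp
    rw [h2, h3, ← sub_div, abs_div, abs_of_pos hM0, div_le_iff₀ hM0]
    refine h1.trans ?_
    have hJ := Pool.Agent.Y822.G.JJ_bd hN3 hz₀N hz₀2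
    rw [← hL] at hJ
    have hDS := errV (N := N) (y := y) (Z := z ^ 2) (ε₁ := ε₁) (δ' := δ') hlev (by rw [← hz₀]; exact hm) f' t hf'o
    rw [← hz₀] at hDS
    obtain ⟨A1, hA1⟩ : ∃ A1 : ℝ, A1 = ZZ y N (SSm N y ε₁ δ') (TV z₀ (z ^ 2)) f' t := ⟨_, rfl⟩
    obtain ⟨A2, hA2⟩ : ∃ A2 : ℝ, A2 = LD y ⌊(N : ℝ) ^ δ'⌋₊ N f' t := ⟨_, rfl⟩
    have hA10 : 0 ≤ A1 := by rw [hA1]; exact ZZ_nonneg _ _ _ _ _ _
    have hA20 : 0 ≤ A2 := by rw [hA2]; exact LD_nonneg _ _ _ _ _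
    have hEV : EV y N ε₁ δ' (TV z₀ (z ^ 2)) f t = A1 + A2 := by
      unfold EV
      rw [← hf', hA1, hA2]
    rw [← hA1, ← hA2] at hDS
    rw [hEV]
    have hDS2 : DS y z₀ (z ^ 2) ((2 ^ 2 ^ JJ z₀) ^ (C0 * b)) N f' t ≤ (3 ^ m₀ + CE) * (A1 + A2) := by
      refine hDS.trans ?_
      have g1 : EE z₀ (z ^ 2) * A2 ≤ CE * A2 := mul_le_mul_of_nonneg_right hEEZ hA20
      have g2 : 0 ≤ (3 : ℝ) ^ m₀ * A2 := by positivity
      have g3 : 0 ≤ CE * A1 := by positivity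
      have e3 : ((3 : ℝ) ^ m₀ + CE) * (A1 + A2) = 3 ^ m₀ * A1 + CE * A2 + 3 ^ m₀ * A2 + CE * A1 := by ring
      rw [e3]
      linarith
    have hDS0 : 0 ≤ DS y z₀ (z ^ 2) ((2 ^ 2 ^ JJ z₀) ^ (C0 * b)) N f' t := by
      unfold DS
      exact sum_nonneg fun _ _ => mul_nonneg (by positivity) (sum_nonneg fun _ _ => abs_nonneg _)
    have h4 : ((JJ z₀ : ℕ) + 2 : ℝ) * DS y z₀ (z ^ 2) ((2 ^ 2 ^ JJ z₀) ^ (C0 * b)) N f' t ≤
        4 * L * ((3 ^ m₀ + CE) * (A1 + A2)) * M := by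
      have h5 := mul_le_mul hJ hDS2 hDS0 (by positivity : (0 : ℝ) ≤ 4 * L)
      have h6 : 0 ≤ 4 * L * ((3 ^ m₀ + CE) * (A1 + A2)) := by positivity
      have h7 : 4 * L * ((3 ^ m₀ + CE) * (A1 + A2)) * 1 ≤ 4 * L * ((3 ^ m₀ + CE) * (A1 + A2)) * M :=
        mul_le_mul_of_nonneg_left (by linarith) h6
      linarith
    have h5 : (1 / 2 : ℝ) ^ b * EE z₀ (z ^ 2) * (VP (PP y z₀) * W) ≤
        ε * ((1 / G0 * (VP (PP y z₀) * W)) / M) * M := by
      have hVW : 0 ≤ VP (PP y z₀) * W := mul_nonneg hV0 hW0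
      have h6 : ε * ((1 / G0 * (VP (PP y z₀) * W)) / M) * M = ε / G0 * (VP (PP y z₀) * W) := by field_simp
      rw [h6]
      apply mul_le_mul_of_nonneg_right _ hVW
      rw [le_div_iff₀ hG00]
      calc (1 / 2 : ℝ) ^ b * EE z₀ (z ^ 2) * G0 ≤ (1 / 2 : ℝ) ^ b * CE * CE := by
            apply mul_le_mul _ hGE hG00.le (by positivity)
            exact mul_le_mul_of_nonneg_left hEEZ (by positivity)
        _ = (1 / 2 : ℝ) ^ b * CE ^ 2 := by ring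
        _ ≤ ε := hb3
    rw [add_mul]
    linarith

end Pool.Agent.Y822.V
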