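import Mathlib
import Pool.Agent.Y822.Q.Stm
import Pool.Agent.Y822.Q.Cmb
import Pool.Agent.Y822.Q.Main
import Pool.Agent.Y822.V.Wgt
import Pool.Agent.Y822.V.Few
import Pool.Agent.Y822.V.Cmb

/-! The `51/200` law for almost all tuples: the theorem. -/

set_option autoImplicit false

namespace Pool.Agent.Y822.V

open Finset Filter Topology
open Pool.Agent.Y822
open Pool.Agent.Y822.Q (PrmStm IntStm few_bad2 CT_le sum_ro Vz_pos)
open Pool.Agent.H373R2.T7 (pz Vz mem_pz)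
open Pool.Agent.H387R2.Uni (nuT Adm locT CT)

open Classical in
/-- **the `51/200` law** -/
theorem lawV (PRM : PrmStm) (INT : IntStm) (k : ℕ) (hk : 1 ≤ k) : ∃ c : ℝ, 0 < c ∧ ∃ ε₂ : ℝ, 0 < ε₂ ∧ ε₂ ≤ 1 ∧
    ∃ B : ℕ, ∀ᶠ N : ℕ in atTop, ∀ A : Finset ℕ, (∀ a ∈ A, a ≤ N) → ∀ Bad : Finset (Finset ℕ),
    (∀ H ∈ Bad, H ∈ A.powersetCard (k + 1) ∧ Adm H ∧
      (cntV H ⌊(N : ℝ) ^ ε₂⌋₊ N : ℝ) < c * CT H * (N / Real.log N ^ (k + 1))) →
    (Bad.card : ℝ) ≤ A.card.choose k * Real.log N ^ B := by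
  obtain ⟨δ₀, hδ₀, HF⟩ := fewV
  obtain ⟨x₁, hx1, hxd, hI⟩ := exists_xV k (min δ₀ (1 / 100)) (lt_min hδ₀ (by norm_num))
  have hx16 : x₁ ≤ 1 / 100 := hxd.trans (min_le_right _ _)
  obtain ⟨ε₁, hε₁, hε₁1, M, hM, cs, hcs, K, hK, HW⟩ := wgtV x₁ x₁ hx1 (by linarith) hx1 hx16
  obtain ⟨κ, hκ, hκ1, C, HF⟩ := HF x₁ hx1 (hxd.trans (min_le_left _ _)) ε₁ hε₁ hε₁1 (k + 4) K hK
  replace HW := HW κ hκ hκ1
  obtain ⟨cp, hcp, hlow⟩ := PT_low k
  have hprm := PRM k κ x₁ (k + 2) hκ hκ1 hx1 (by linarith)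
  have hint := INT k κ x₁ (k + 2) hκ hκ1 hx1 (by linarith)
  refine ⟨cs ^ k / (4 * M * (200 * (k + 1) + 1)), by positivity, ε₁ / 2, by positivity, by linarith, C + 1, ?_⟩
  have e1 := ev_logN (eventually_ge_atTop (max (max 4 ((2 : ℝ) ^ k + k ^ 2 * 2 ^ (k - 1)))
    (max (302 * M * (k + 1) * (k + 2) / (cs ^ k * cp)) (4 * ((k : ℝ) + 1) ^ 3))))
  have e2 := ev_logN (ev_pow_exp (k + 2) (1 / 2) 1 (by norm_num))
  filter_upwards [HF, HW, hprm, hint, yN_facts κ hκ hκ1 3 1, e1, e2, eventually_ge_atTop 3]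
    with N HF HW hprm hint hyf h1 h2 hN3
  intro A hA Bad hBad
  obtain ⟨g, u, TT, hTT, hg, hu0, hu1, hup, hulow, hgR, hgP, hstep⟩ := HW
  obtain ⟨y1, y2, y3, y4, y5⟩ := hyf
  set y := yN κ N with hy
  set L := Real.log N with hLd
  have hN0 : (0 : ℝ) < N := by positivity
  have hL4 : 4 ≤ L := ((le_max_left _ _).trans (le_max_left _ _)).trans h1
  have hL2k : (2 : ℝ) ^ k + k ^ 2 * 2 ^ (k - 1) ≤ L := ((le_max_right _ _).trans (le_max_left _ _)).trans h1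
  have hLb : 302 * M * (k + 1) * (k + 2) / (cs ^ k * cp) ≤ L := ((le_max_left _ _).trans (le_max_right _ _)).trans h1
  have hLk : 4 * ((k : ℝ) + 1) ^ 3 ≤ L := ((le_max_right _ _).trans (le_max_right _ _)).trans h1
  have hL0 : 0 < L := by linarith
  have hL1 : 1 ≤ L := by linarith
  obtain ⟨x, hx⟩ : ∃ x : ℝ, x = N / L ^ (k + 2) := ⟨_, rfl⟩
  have hx0 : 0 ≤ x := by rw [hx]; positivity
  have hE : Real.exp (L / 2) ≤ x := by
    rw [hx, le_div_iff₀ (by positivity)]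
    have h3 : (N : ℝ) = Real.exp (L / 2) * Real.exp (L / 2) := by
      rw [← Real.exp_add, add_halves, hLd, Real.exp_log hN0]
    rw [h3]
    apply mul_le_mul_of_nonneg_left _ (Real.exp_pos _).le
    have h4 : (1 : ℝ) / 2 * L = L / 2 := by ring
    rw [one_mul, h4] at h2
    exact h2
  obtain ⟨Z, hZ⟩ : ∃ Z : (ℕ → ℝ) → ℕ → ℝ, Z = fun f t => if t ≤ N then 4 * L * (K * EV y N ε₁ x₁ TT f t) else x + 1 := ⟨_, rfl⟩
  have hfew : ∀ f : ℕ → ℝ, (∀ n, |f n| ≤ 1) → ∀ S : Finset ℕ, (∀ a ∈ S, a ≤ N ∧ x < Z f a) →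
      (S.card : ℝ) ≤ L ^ C := by
    intro f hf S hS
    refine HF TT hTT f hf S (fun a ha => ⟨(hS a ha).1, ?_⟩)
    obtain ⟨h3, h4⟩ := hS a ha
    rw [hZ] at h4
    simp only [if_pos h3] at h4
    rw [div_lt_iff₀ (by positivity)]
    rw [hx, div_lt_iff₀ (by positivity)] at h4
    have hLD : 0 ≤ K * EV y N ε₁ x₁ TT f a := by
      unfold EV
      exact mul_nonneg hK.le (add_nonneg (QF.ZZ_nonneg _ _ _ _ _ _) (LD_nonneg _ _ _ _ _))
    have h5 : 4 * L * (K * EV y N ε₁ x₁ TT f a) * L ^ (k + 2) ≤ K * EV y N ε₁ x₁ TT f a * L ^ (k + 4) := by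
      have h6 : 4 * L ≤ L ^ 2 := by
        rw [sq]
        exact mul_le_mul_of_nonneg_right hL4 hL0.le
      calc 4 * L * (K * EV y N ε₁ x₁ TT f a) * L ^ (k + 2) = (4 * L) * (K * EV y N ε₁ x₁ TT f a * L ^ (k + 2)) := by ring
        _ ≤ L ^ 2 * (K * EV y N ε₁ x₁ TT f a * L ^ (k + 2)) := mul_le_mul_of_nonneg_right h6 (by positivity)
        _ = _ := by ring
    linarith
  have hstepU : ∀ f : ℕ → ℝ, (∀ n, 0 ≤ f n ∧ f n ≤ 1) → ∀ h : ℕ, Z f h ≤ x →
      ∑ n ∈ Icc 1 N, f n * g (n + h) ≤ ((1 + x₁) * u) * ∑ n ∈ Icc 1 N, f n * ro y (n + h) + x := by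
    intro f hf t hZt
    rw [hZ] at hZt
    simp only at hZt
    split_ifs at hZt with h3
    · have h4 := (abs_le.1 (hstep f hf t h3)).2
      linarith
    · linarith
  have hstepL : ∀ f : ℕ → ℝ, (∀ n, 0 ≤ f n ∧ f n ≤ 1) → ∀ h : ℕ, Z f h ≤ x →
      ((1 - x₁) * u) * ∑ n ∈ Icc 1 N, f n * ro y (n + h) - x ≤ ∑ n ∈ Icc 1 N, f n * g (n + h) := by
    intro f hf t hZt
    rw [hZ] at hZt
    simp only at hZt
    split_ifs at hZt with h3
    · have h4 := (abs_le.1 (hstep f hf t h3)).1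
      linarith
    · linarith
  have hone : ∀ n : ℕ, (0 : ℝ) ≤ (fun _ : ℕ => (1 : ℝ)) n ∧ (fun _ : ℕ => (1 : ℝ)) n ≤ 1 :=
    fun n => ⟨zero_le_one, le_rfl⟩
  have heP : ∀ i n : ℕ, 0 ≤ (fun (i n : ℕ) => eP (n + i)) i n ∧ (fun (i n : ℕ) => eP (n + i)) i n ≤ 1 :=
    fun i n => eP_bd _
  obtain ⟨j, rfl⟩ : ∃ j, k = j + 1 := ⟨k - 1, by omega⟩
  -- bad sets are not good
  have hbad : ∀ H ∈ Bad, H ∈ A.powersetCard (j + 2) ∧
      ¬ (Good (fun _ => (1 : ℝ)) g (ro y) Z x H ∧ ∀ i ∈ H, Good ((fun (i n : ℕ) => eP (n + i)) i) g (ro y) Z x (H.erase i)) := by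
    intro H hH
    obtain ⟨b1, b2, b3⟩ := hBad H hH
    refine ⟨b1, fun hgood => ?_⟩
    obtain ⟨good0, goodi⟩ := hgood
    rw [mem_powersetCard] at b1
    have hHc : H.card = j + 1 + 1 := b1.2
    have hHN : ∀ h ∈ H, h ≤ N := fun h hh => hA h (b1.1 hh)
    obtain ⟨c1, c2⟩ := hlow H hHc b2
    have hCP : CT H ≤ 2 * PT H y := CT_le hLd hL1 y5 y3 (by push_cast at hLk ⊢; exact hLk) hHc hHN
    -- the sum of all the weights
    have hS0 := step_upper (N := N) hx0 (mul_nonneg (by linarith) hu0) hu1 hone hg (ro_bd y) hstepU good0 H (subset_refl _)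
    have hS0' : ∑ n ∈ Icc 1 N, WH (fun _ => (1 : ℝ)) g (ro y) H H n = ∑ n ∈ Icc 1 N, ∏ t ∈ H, g (n + t) := by
      refine sum_congr rfl fun n _ => ?_
      unfold WH
      rw [Finset.sdiff_self, prod_empty, mul_one, one_mul]
    have hR' : ∑ n ∈ Icc 1 N, WH (fun _ => (1 : ℝ)) g (ro y) H ∅ n =
        (((Icc 1 N).filter (fun n => ∀ t ∈ H, Ro y (n + t))).card : ℝ) := by
      have := sum_ro H y N (fun _ => True)
      simp only [if_true, true_and] at this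
      rw [← this]
      refine sum_congr rfl fun n _ => ?_
      unfold WH
      rw [prod_empty, one_mul, sdiff_empty]
    rw [hS0', hR', hHc] at hS0
    -- the sums over primes
    have hSi : ∀ i ∈ H, ((1 - x₁) * u) ^ (j + 1) *
        (((Icc 1 N).filter (fun n => (n + i).Prime ∧ ∀ t ∈ H.erase i, Ro y (n + t))).card : ℝ) - (j + 1 : ℕ) * x ≤
        ∑ n ∈ Icc 1 N, eP (n + i) * ∏ t ∈ H.erase i, g (n + t) := by
      intro i hi
      have hu1' : (1 - x₁) * u ≤ 1 := by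
        refine le_trans ?_ hu1
        exact mul_le_mul_of_nonneg_right (by linarith) hu0
      have h3 := step_lower (N := N) hx0 (mul_nonneg (by linarith) hu0) hu1' (heP i) hg (ro_bd y) hstepL (goodi i hi)
        (H.erase i) (subset_refl _)
      have h4 : (H.erase i).card = j + 1 := by rw [card_erase_of_mem hi, hHc]; rfl
      rw [h4] at h3
      have h5 : ∑ n ∈ Icc 1 N, WH ((fun (i n : ℕ) => eP (n + i)) i) g (ro y) (H.erase i) (H.erase i) n =
          ∑ n ∈ Icc 1 N, eP (n + i) * ∏ t ∈ H.erase i, g (n + t) := by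
        refine sum_congr rfl fun n _ => ?_
        unfold WH
        rw [Finset.sdiff_self, prod_empty, mul_one]
      have h6 : ∑ n ∈ Icc 1 N, WH ((fun (i n : ℕ) => eP (n + i)) i) g (ro y) (H.erase i) ∅ n =
          (((Icc 1 N).filter (fun n => (n + i).Prime ∧ ∀ t ∈ H.erase i, Ro y (n + t))).card : ℝ) := by
        refine Eq.trans ?_ ((sum_ro (H.erase i) y N (fun n => (n + i).Prime)).trans (by congr!))
        refine sum_congr rfl fun n _ => ?_
        unfold WH eP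
        simp only [prod_empty, one_mul, sdiff_empty]
        by_cases hpn : (n + i).Prime
        · simp [hpn]
        · simp [hpn]
      rw [h5, h6] at h3
      exact h3
    -- the comparison
    have hTg := T_geV (N := N) (M := M) (E := Real.exp (L / 2)) hg (by linarith) (Real.exp_pos _).le hgP H hHN
    have hTl := T_leV (N := N) hg hgR H
    obtain ⟨T, hTd⟩ : ∃ T : ℝ, T = ∑ n ∈ Icc 1 N, (∏ t ∈ H, g (n + t)) *
      (200 * (∑ i ∈ H, eP (n + i)) - 51 * (H.card : ℝ) + 1 / 2) := ⟨_, rfl⟩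
    rw [← hTd] at hTg hTl
    rw [hHc] at hTg hTl
    -- all the sums over primes are at least `S`
    obtain ⟨P, hP⟩ : ∃ P : ℝ, P = (1 - x₁) * (N / L * (PT H y * Vz y ^ (j + 1))) - N / L ^ (j + 1 + 2) := ⟨_, rfl⟩
    obtain ⟨S, hS⟩ : ∃ S : ℝ, S = ((1 - x₁) * u) ^ (j + 1) * P - (j + 1 : ℕ) * x := ⟨_, rfl⟩
    have hSle : ∀ i ∈ H, S ≤ ∑ n ∈ Icc 1 N, eP (n + i) * ∏ t ∈ H.erase i, g (n + t) := by
      intro i hi
      refine le_trans ?_ (hSi i hi)
      rw [hS]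
      apply sub_le_sub_right
      apply mul_le_mul_of_nonneg_left _ (pow_nonneg (mul_nonneg (by linarith) hu0) _)
      rw [hP]
      exact hprm H hHc hHN i hi
    have hsumS : ((j + 1 : ℕ) + 1 : ℝ) * ((200 / M) * (S - Real.exp (L / 2))) ≤
        ∑ i ∈ H, (200 / M) * (∑ n ∈ Icc 1 N, eP (n + i) * ∏ t ∈ H.erase i, g (n + t) - Real.exp (L / 2)) := by
      have h3 : ∑ _i ∈ H, (200 / M) * (S - Real.exp (L / 2)) ≤
          ∑ i ∈ H, (200 / M) * (∑ n ∈ Icc 1 N, eP (n + i) * ∏ t ∈ H.erase i, g (n + t) - Real.exp (L / 2)) := by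
        refine sum_le_sum fun i hi => ?_
        apply mul_le_mul_of_nonneg_left _ (by positivity)
        exact sub_le_sub_right (hSle i hi) _
      rw [sum_const, hHc, nsmul_eq_mul] at h3
      push_cast at h3 ⊢
      exact h3
    have hRb := (abs_le.1 (hint H hHc)).2
    have key := calc1V (k := j + 1) (x₁ := x₁) (a := 51 / 200 - 2 * x₁) (M := M) (n := N) (L := L) (u := u) (V := Vz y) (PT := PT H y)
      (x := x) (S := S) (S0 := ∑ n ∈ Icc 1 N, ∏ t ∈ H, g (n + t)) (T := T)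
      (R := (((Icc 1 N).filter (fun n => ∀ t ∈ H, Ro y (n + t))).card : ℝ)) (P := P) (E := Real.exp (L / 2))
      hx1 hx16 (by linarith) hI hM hN0 hL1 hu0 hu1 (Vz_pos y).le (PT_nonneg _ _) hx0 hE hup
      (by rw [hx]; linarith)
      (by rw [hP, hx])
      (by rw [hS])
      (by push_cast at hS0 ⊢; linarith)
      (by push_cast at hTg hsumS ⊢; linarith)
    have hfin := calc2V (k := j + 1) (M := M) (n := N) (L := L) (a := u * Vz y) (PT := PT H y) (CTT := CT H)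
      (x := x) (T := T) (cs := cs) (cp := cp) (Cn := (cntV H ⌊(N : ℝ) ^ (ε₁ / 2)⌋₊ N : ℝ)) hM hN0 hL1 hcs hcp hulow (c1 y) hCP hx hLb key
      (by push_cast at hTl ⊢; linarith)
    linarith
  have hfinal := few_bad2 (N := N) (K := L ^ C) (by positivity) heP hg (ro_bd y) hfew j A hA Bad hbad
  refine hfinal.trans (mul_le_mul_of_nonneg_left ?_ (Nat.cast_nonneg _))
  rw [pow_succ L C, mul_comm]
  apply mul_le_mul_of_nonneg_left _ (by positivity)
  have h3 : (((j + 1 : ℕ) : ℝ)) = (j : ℝ) + 1 := by push_cast; ring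
  rw [h3] at hL2k
  exact hL2k

end Pool.Agent.Y822.V
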